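import Pool.Agent.N356.SP.Defs4

set_option autoImplicit false

/-!
KS1: quadruples without weights.
-/

namespace Pool.Agent.N169.LS

open Finset Pool.Agent.H384R3.SPk Pool.Agent.N356.SP

section Comb

variable {Γ : Type*} [AddCommGroup Γ]

open Classical in
/-- the indicator function of `x = y` -/
noncomputable def dl (x y : Γ) : ℝ := if x = y then 1 else 0

theorem dl_sum {D : Finset Γ} {v : Γ} (hv : v ∈ D) (F : Γ → ℝ) :
    ∑ d ∈ D, dl d v * F d = F v := by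
  classical
  unfold dl
  simp only [ite_mul, one_mul, zero_mul]
  rw [Finset.sum_ite_eq' D v]
  rw [if_pos hv]

theorem dl_self (x : Γ) : dl x x = 1 := by
  unfold dl
  rw [if_pos rfl]

theorem dl_neg (x y : Γ) : dl (-x) (-y) = dl y x := by
  unfold dl
  by_cases h : x = y
  · rw [if_pos (by rw [h]), if_pos h.symm]
  · rw [if_neg (fun h' => h (neg_inj.1 h')), if_neg (fun h' => h h'.symm)]

theorem dl_zo (x y : Γ) : dl x y = 0 ∨ dl x y = 1 := by
  unfold dl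
  split_ifs
  · exact Or.inr rfl
  · exact Or.inl rfl

theorem pt (p q r : ℝ) (hp : p = 0 ∨ p = 1) (hq : q = 0 ∨ q = 1) (hr : r = 0 ∨ r = 1) :
    p + q + r - p * q - q * r - p * r ≤ 1 := by
  rcases hp with rfl | rfl <;> rcases hq with rfl | rfl <;> rcases hr with rfl | rfl <;> norm_num

theorem zo_mul {p q : ℝ} (hp : p = 0 ∨ p = 1) (hq : q = 0 ∨ q = 1) : p * q = 0 ∨ p * q = 1 := by
  rcases hp with rfl | rfl <;> rcases hq with rfl | rfl <;> norm_num

theorem m1 (x y : Γ) : ({x, y, -x, -y} : Multiset Γ) = {x, -x, y, -y} := by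
  simp only [Multiset.insert_eq_cons]
  rw [Multiset.cons_swap y (-x)]

theorem m2 (x y : Γ) : ({x, y, -y, -x} : Multiset Γ) = {x, -x, y, -y} := by
  simp only [Multiset.insert_eq_cons]
  rw [← m1' x y]
where
  m1' (x y : Γ) : (x ::ₘ y ::ₘ (-y) ::ₘ {-x} : Multiset Γ) = x ::ₘ (-x) ::ₘ y ::ₘ {-y} := by
    congr 1
    have h : ({-y} : Multiset Γ) = (-y) ::ₘ 0 := rfl
    have h' : ({-x} : Multiset Γ) = (-x) ::ₘ 0 := rfl
    rw [h, h', Multiset.cons_swap (-y) (-x), Multiset.cons_swap y (-x)]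

/-- KS1: quadruples, without weights -/
theorem comb2s {D : Finset Γ} (hneg : ∀ s ∈ D, -s ∈ D) (hne : ∀ s ∈ D, s ≠ -s)
    (J : Multiset Γ → ℝ) (J0 : ∀ U, 0 ≤ J U) :
    3 / 2 * (∑ x ∈ D, ∑ y ∈ D, J {x, -x, y, -y}) ≤
      ∑ a ∈ D, ∑ b ∈ D, ∑ c ∈ D, ∑ d ∈ D, J {a, b, c, d} := by
  classical
  -- the pieces
  have hP : ∑ a ∈ D, ∑ b ∈ D, ∑ c ∈ D, ∑ d ∈ D,
      dl b (-a) * dl d (-c) * J {a, b, c, d} = ∑ x ∈ D, ∑ y ∈ D, J {x, -x, y, -y} := by
    refine Finset.sum_congr rfl fun a ha => ?_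
    have h1 : ∀ b, ∑ c ∈ D, ∑ d ∈ D, dl b (-a) * dl d (-c) * J {a, b, c, d} =
        dl b (-a) * ∑ c ∈ D, ∑ d ∈ D, dl d (-c) * J {a, b, c, d} := by
      intro b
      simp only [Finset.mul_sum, mul_assoc]
    rw [Finset.sum_congr rfl fun b _ => h1 b,
      dl_sum (hneg a ha) fun b => ∑ c ∈ D, ∑ d ∈ D, dl d (-c) * J {a, b, c, d}]
    refine Finset.sum_congr rfl fun c hc => ?_
    exact dl_sum (hneg c hc) fun d => J {a, -a, c, d}
  have hQ : ∑ a ∈ D, ∑ b ∈ D, ∑ c ∈ D, ∑ d ∈ D,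
      dl c (-a) * dl d (-b) * J {a, b, c, d} = ∑ x ∈ D, ∑ y ∈ D, J {x, -x, y, -y} := by
    refine Finset.sum_congr rfl fun a ha => Finset.sum_congr rfl fun b hb => ?_
    have h1 : ∀ c, ∑ d ∈ D, dl c (-a) * dl d (-b) * J {a, b, c, d} =
        dl c (-a) * ∑ d ∈ D, dl d (-b) * J {a, b, c, d} := by
      intro c
      simp only [Finset.mul_sum, mul_assoc]
    rw [Finset.sum_congr rfl fun c _ => h1 c,
      dl_sum (hneg a ha) fun c => ∑ d ∈ D, dl d (-b) * J {a, b, c, d},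
      dl_sum (hneg b hb) fun d => J {a, b, -a, d}, m1]
  have hR : ∑ a ∈ D, ∑ b ∈ D, ∑ c ∈ D, ∑ d ∈ D,
      dl d (-a) * dl c (-b) * J {a, b, c, d} = ∑ x ∈ D, ∑ y ∈ D, J {x, -x, y, -y} := by
    refine Finset.sum_congr rfl fun a ha => Finset.sum_congr rfl fun b hb => ?_
    have h1 : ∀ c, ∑ d ∈ D, dl d (-a) * dl c (-b) * J {a, b, c, d} =
        dl c (-b) * ∑ d ∈ D, dl d (-a) * J {a, b, c, d} := by
      intro c
      rw [Finset.mul_sum]
      exact Finset.sum_congr rfl fun d _ => by ring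
    rw [Finset.sum_congr rfl fun c _ => h1 c,
      dl_sum (hneg b hb) fun c => ∑ d ∈ D, dl d (-a) * J {a, b, c, d},
      dl_sum (hneg a ha) fun d => J {a, b, -b, d}, m2]
  have hPQ : ∑ a ∈ D, ∑ b ∈ D, ∑ c ∈ D, ∑ d ∈ D,
      dl b (-a) * dl d (-c) * (dl c (-a) * dl d (-b)) * J {a, b, c, d} =
        ∑ x ∈ D, J {x, -x, x, -x} := by
    refine Finset.sum_congr rfl fun a ha => ?_
    have h1 : ∀ b, ∑ c ∈ D, ∑ d ∈ D,
        dl b (-a) * dl d (-c) * (dl c (-a) * dl d (-b)) * J {a, b, c, d} =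
        dl b (-a) * ∑ c ∈ D, dl c (-a) * ∑ d ∈ D, dl d (-c) * (dl d (-b) * J {a, b, c, d}) := by
      intro b
      rw [Finset.mul_sum]
      refine Finset.sum_congr rfl fun c _ => ?_
      rw [Finset.mul_sum, Finset.mul_sum]
      exact Finset.sum_congr rfl fun d _ => by ring
    rw [Finset.sum_congr rfl fun b _ => h1 b,
      dl_sum (hneg a ha) fun b => ∑ c ∈ D, dl c (-a) * ∑ d ∈ D, dl d (-c) *
        (dl d (-b) * J {a, b, c, d}),
      dl_sum (hneg a ha) fun c => ∑ d ∈ D, dl d (-c) * (dl d (- -a) * J {a, -a, c, d}),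
      dl_sum (hneg _ (hneg a ha)) fun d => dl d (- -a) * J {a, -a, -a, d}, dl_self, one_mul,
      neg_neg]
    have := m2 a (-a)
    rw [neg_neg] at this
    rw [← m1 a a]
    congr 1
    simp only [Multiset.insert_eq_cons]
    have h2 : ({a} : Multiset Γ) = a ::ₘ 0 := rfl
    have h3 : ({-a} : Multiset Γ) = (-a) ::ₘ 0 := rfl
    rw [h2, h3, Multiset.cons_swap (-a) a, Multiset.cons_swap (-a) a]
  have hQR : ∑ a ∈ D, ∑ b ∈ D, ∑ c ∈ D, ∑ d ∈ D,
      dl c (-a) * dl d (-b) * (dl d (-a) * dl c (-b)) * J {a, b, c, d} =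
        ∑ x ∈ D, J {x, -x, x, -x} := by
    refine Finset.sum_congr rfl fun a ha => ?_
    have h1 : ∀ b ∈ D, ∑ c ∈ D, ∑ d ∈ D,
        dl c (-a) * dl d (-b) * (dl d (-a) * dl c (-b)) * J {a, b, c, d} =
        dl b a * J {a, b, -a, -b} := by
      intro b hb
      have h2 : ∀ c, ∑ d ∈ D, dl c (-a) * dl d (-b) * (dl d (-a) * dl c (-b)) * J {a, b, c, d} =
          dl c (-a) * (dl c (-b) * ∑ d ∈ D, dl d (-b) * (dl d (-a) * J {a, b, c, d})) := by
        intro c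
        rw [Finset.mul_sum, Finset.mul_sum]
        exact Finset.sum_congr rfl fun d _ => by ring
      rw [Finset.sum_congr rfl fun c _ => h2 c,
        dl_sum (hneg a ha) fun c => dl c (-b) * ∑ d ∈ D, dl d (-b) * (dl d (-a) * J {a, b, c, d}),
        dl_sum (hneg b hb) fun d => dl d (-a) * J {a, b, -a, d}, dl_neg, dl_neg]
      have h3 : dl b a = dl a b := by
        rw [← dl_neg, dl_neg]
        unfold dl
        by_cases h : a = b
        · rw [if_pos h, if_pos h.symm]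
        · rw [if_neg h, if_neg fun h' => h h'.symm]
      rcases dl_zo a b with h4 | h4
      · rw [h3, h4]; ring
      · rw [h3, h4]; ring
    rw [Finset.sum_congr rfl h1, dl_sum ha fun b => J {a, b, -a, -b}, m1]
  have hPR : ∑ a ∈ D, ∑ b ∈ D, ∑ c ∈ D, ∑ d ∈ D,
      dl b (-a) * dl d (-c) * (dl d (-a) * dl c (-b)) * J {a, b, c, d} =
        ∑ x ∈ D, J {x, -x, x, -x} := by
    refine Finset.sum_congr rfl fun a ha => ?_
    have h1 : ∀ b, ∑ c ∈ D, ∑ d ∈ D,
        dl b (-a) * dl d (-c) * (dl d (-a) * dl c (-b)) * J {a, b, c, d} =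
        dl b (-a) * ∑ c ∈ D, dl c (-b) * ∑ d ∈ D, dl d (-c) * (dl d (-a) * J {a, b, c, d}) := by
      intro b
      rw [Finset.mul_sum]
      refine Finset.sum_congr rfl fun c _ => ?_
      rw [Finset.mul_sum, Finset.mul_sum]
      exact Finset.sum_congr rfl fun d _ => by ring
    rw [Finset.sum_congr rfl fun b _ => h1 b,
      dl_sum (hneg a ha) fun b => ∑ c ∈ D, dl c (-b) * ∑ d ∈ D, dl d (-c) *
        (dl d (-a) * J {a, b, c, d})]
    simp only [neg_neg]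
    rw [dl_sum ha fun c => ∑ d ∈ D, dl d (-c) * (dl d (-a) * J {a, -a, c, d}),
      dl_sum (hneg a ha) fun d => dl d (-a) * J {a, -a, a, d}, dl_self, one_mul]
  -- the inequality
  have hI : ∑ a ∈ D, ∑ b ∈ D, ∑ c ∈ D, ∑ d ∈ D,
      (dl b (-a) * dl d (-c) * J {a, b, c, d} + dl c (-a) * dl d (-b) * J {a, b, c, d} +
        dl d (-a) * dl c (-b) * J {a, b, c, d} -
        dl b (-a) * dl d (-c) * (dl c (-a) * dl d (-b)) * J {a, b, c, d} -
        dl c (-a) * dl d (-b) * (dl d (-a) * dl c (-b)) * J {a, b, c, d} -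
        dl b (-a) * dl d (-c) * (dl d (-a) * dl c (-b)) * J {a, b, c, d}) ≤
      ∑ a ∈ D, ∑ b ∈ D, ∑ c ∈ D, ∑ d ∈ D, J {a, b, c, d} := by
    refine Finset.sum_le_sum fun a _ => Finset.sum_le_sum fun b _ => Finset.sum_le_sum fun c _ =>
      Finset.sum_le_sum fun d _ => ?_
    have h1 := pt _ _ _ (zo_mul (dl_zo b (-a)) (dl_zo d (-c))) (zo_mul (dl_zo c (-a)) (dl_zo d (-b)))
      (zo_mul (dl_zo d (-a)) (dl_zo c (-b)))
    have h2 := mul_le_mul_of_nonneg_right h1 (J0 {a, b, c, d})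
    calc _ = _ := by ring
      _ ≤ _ := h2
      _ = _ := one_mul _
  simp only [Finset.sum_add_distrib, Finset.sum_sub_distrib] at hI
  rw [hP, hQ, hR, hPQ, hQR, hPR] at hI
  have hD : 2 * ∑ x ∈ D, J {x, -x, x, -x} ≤ ∑ x ∈ D, ∑ y ∈ D, J {x, -x, y, -y} := by
    rw [Finset.mul_sum]
    refine Finset.sum_le_sum fun x hx => ?_
    have h1 : ∑ y ∈ ({x, -x} : Finset Γ), J {x, -x, y, -y} ≤ ∑ y ∈ D, J {x, -x, y, -y} := by
      refine Finset.sum_le_sum_of_subset_of_nonneg ?_ fun _ _ _ => J0 _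
      intro y hy
      rw [Finset.mem_insert, Finset.mem_singleton] at hy
      rcases hy with rfl | rfl
      · exact hx
      · exact hneg x hx
    rw [Finset.sum_pair (hne x hx), neg_neg] at h1
    have h2 : ({x, -x, -x, x} : Multiset Γ) = {x, -x, x, -x} := by
      simp only [Multiset.insert_eq_cons]
      congr 2
      have h2 : ({x} : Multiset Γ) = x ::ₘ 0 := rfl
      have h3 : ({-x} : Multiset Γ) = (-x) ::ₘ 0 := rfl
      rw [h2, h3, Multiset.cons_swap (-x) x]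
    rw [h2] at h1
    linarith
  linarith

end Comb

end Pool.Agent.N169.LS
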