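import Pool.Agent.N356.SP.Defs4
import Pool.Agent.N402.LS.SumA
import Pool.Agent.N615.LS.Small
import Pool.Agent.N232.LS.Quads

set_option autoImplicit false

/-!
KS2: quadruples with weights.
-/

namespace Pool.Agent.N169.LS

open Finset Pool.Agent.H384R3.SPk Pool.Agent.N356.SP

section Comb

variable {Γ : Type*} [AddCommGroup Γ]

theorem w2_le (Q : Γ × Γ × Γ × Γ) : w2 Q ≤ 27 / 16 := by
  unfold w2
  split_ifs
  · exact le_refl _
  · norm_num

/-- KS2: quadruples, with weights -/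
theorem comb2 {C : Finset Γ} {θ : Γ → Γ → ℝ} (h : GoodC C θ)
    (I : Multiset Γ → ℝ) (I0 : ∀ U, 0 ≤ I U) (Iz : ∀ U : Multiset Γ, U.sum ≠ 0 → I U = 0) :
    3 / 2 * (∑ x ∈ C, ∑ y ∈ C, I {x, -x, y, -y}) +
      8 / 15 * (∑ s ∈ C, ∑ t ∈ C, ∑ u ∈ C, ∑ v ∈ C, θ s t * θ u v * I {s, t, u, v}) ≤
    ∑ a ∈ C, ∑ b ∈ C, ∑ c ∈ C, ∑ d ∈ C, I {a, b, c, d} := by
  classical
  have hneg := h.neg
  have hne := h.ne
  obtain ⟨M, hM⟩ : ∃ M, M = ∑ x ∈ C, ∑ y ∈ C, I {x, -x, y, -y} := ⟨_, rfl⟩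
  obtain ⟨D1, hD1⟩ : ∃ M, M = ∑ x ∈ C, I {x, -x, x, -x} := ⟨_, rfl⟩
  obtain ⟨Z, hZ⟩ : ∃ M, M = ∑ Q ∈ TQ C, I (Q.1 ::ₘ ms Q.2) := ⟨_, rfl⟩
  -- one antipodal class
  have hone : ∀ c ∈ C, ∀ U : Multiset Γ, U.sum = c → ∑ a ∈ C, I (a ::ₘ U) = I ((-c) ::ₘ U) := by
    intro c hc U hU
    refine Finset.sum_eq_single_of_mem (-c) (hneg c hc) fun a _ hac => Iz _ ?_
    rw [Multiset.sum_cons, hU]
    intro h0
    exact hac (eq_neg_of_add_eq_zero_left h0)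
  -- the antipodal part
  have hA : ∑ a ∈ C, ∑ T ∈ TA C, I (a ::ₘ ms T) = 3 * M - 3 * D1 := by
    rw [Finset.sum_comm, Pool.Agent.N402.LS.sumA hneg hne fun U => ∑ a ∈ C, I (a ::ₘ U), hM, hD1]
    congr 2
    · refine Finset.sum_congr rfl fun c hc => Finset.sum_congr rfl fun x hx => ?_
      rw [hone c hc _ (by simp)]
      congr 1
      simp only [Multiset.insert_eq_cons]
      rw [Multiset.cons_swap]
    · refine Finset.sum_congr rfl fun c hc => ?_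
      rw [hone c hc _ (by simp)]
      congr 1
      simp only [Multiset.insert_eq_cons]
      rw [Multiset.cons_swap]
  -- the other part
  have hY : ∑ a ∈ C, ∑ T ∈ TY C, I (a ::ₘ ms T) = Z := by
    rw [hZ, ← Finset.sum_product' C (TY C) fun a T => I (a ::ₘ ms T)]
    unfold TQ
    rw [Finset.sum_filter]
    refine Finset.sum_congr rfl fun Q _ => ?_
    split_ifs with h0
    · rfl
    · refine Iz _ fun h1 => h0 ?_
      rw [← h1]
      simp only [ms, Multiset.insert_eq_cons, Multiset.sum_cons, Multiset.sum_singleton]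
      abel
  have hR : ∑ a ∈ C, ∑ b ∈ C, ∑ c ∈ C, ∑ d ∈ C, I {a, b, c, d} = 3 * M - 3 * D1 + Z := by
    rw [← hA, ← hY, ← Finset.sum_add_distrib]
    refine Finset.sum_congr rfl fun a _ => ?_
    have h1 : ∑ T ∈ TA C, I (a ::ₘ ms T) + ∑ T ∈ TY C, I (a ::ₘ ms T) =
        ∑ T ∈ C ×ˢ C ×ˢ C, I (a ::ₘ ms T) := by
      unfold TA TY
      convert Finset.sum_filter_add_sum_filter_not (C ×ˢ C ×ˢ C) ap fun T => I (a ::ₘ ms T)
    rw [h1, Finset.sum_product]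
    refine Finset.sum_congr rfl fun b _ => ?_
    rw [Finset.sum_product]
    rfl
  -- the weights
  have hW := Pool.Agent.N232.LS.Wsplit h I I0 Iz
  have hP := Pool.Agent.N615.LS.Wpaired h (fun s t => I {s, -s, t, -t}) (fun _ _ => I0 _) (by
    intro s t
    simp only [neg_neg]
    congr 1
    simp only [Multiset.insert_eq_cons]
    congr 2
    have h2 : ({t} : Multiset Γ) = t ::ₘ 0 := rfl
    have h3 : ({-t} : Multiset Γ) = (-t) ::ₘ 0 := rfl
    rw [h2, h3, Multiset.cons_swap])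
  rw [← hM, ← hD1] at hP
  have hw : ∑ Q ∈ TQ C, w2 Q * I (Q.1 ::ₘ ms Q.2) ≤ 27 / 16 * Z := by
    rw [hZ, Finset.mul_sum]
    exact Finset.sum_le_sum fun Q _ => mul_le_mul_of_nonneg_right (w2_le Q) (I0 _)
  have hZ0 : 0 ≤ Z := by rw [hZ]; exact Finset.sum_nonneg fun _ _ => I0 _
  rw [hR, ← hM]
  linarith

end Comb

end Pool.Agent.N169.LS
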