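import Pool.Agent.N356.SP.Defs4

set_option autoImplicit false

/-!
KS3: grading of the square of `f`.
-/

namespace Pool.Agent.N169.LS

open Finset Pool.Agent.H384R3.SPk Pool.Agent.N356.SP

section Abs

variable {Γ R : Type*} [AddCommGroup Γ] [CommRing R] [Algebra ℝ R] {K : Cone Γ R}
  {L : R →ₗ[ℝ] ℝ} {C : Finset Γ} {θ : Γ → Γ → ℝ} {φ : Γ → R}

theorem sum_mem' (K : Cone Γ R) {ι : Type*} (s : Finset ι) (f : ι → R) (c : Γ)
    (h : ∀ i ∈ s, f i ∈ K.P c) : ∑ i ∈ s, f i ∈ K.P c := by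
  classical
  induction s using Finset.induction_on with
  | empty => rw [Finset.sum_empty]; exact K.zero c
  | insert a s ha ih =>
    rw [Finset.sum_insert ha]
    exact K.add c _ _ (h a (Finset.mem_insert_self a s))
      (ih fun i hi => h i (Finset.mem_insert_of_mem hi))

/-- KS3: grading of the square of `f` -/
theorem fA_sq (hneg : ∀ s ∈ C, -s ∈ C) : fA C φ ^ 2 = muA C φ + UA C φ := by
  classical
  have h1 : fA C φ ^ 2 = ∑ s ∈ C, ∑ t ∈ C, φ s * φ t := by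
    unfold fA
    rw [sq, Finset.sum_mul_sum]
  have h2 : ∀ s ∈ C, ∀ t ∈ C, φ s * φ t =
      (if s + t = 0 then φ s * φ t else 0) +
        ∑ d ∈ (DD C).erase 0, if s + t = d then φ s * φ t else 0 := by
    intro s hs t ht
    by_cases h0 : s + t = 0
    · rw [if_pos h0, Finset.sum_eq_zero, add_zero]
      intro d hd
      rw [if_neg]
      intro h3
      exact (Finset.mem_erase.1 hd).1 (h3.symm.trans h0)
    · rw [if_neg h0, zero_add, Finset.sum_ite_eq, if_pos]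
      rw [Finset.mem_erase]
      refine ⟨h0, ?_⟩
      unfold DD
      rw [Finset.mem_image]
      exact ⟨(s, t), Finset.mem_product.2 ⟨hs, ht⟩, rfl⟩
  rw [h1, Finset.sum_congr rfl fun s hs => Finset.sum_congr rfl fun t ht => h2 s hs t ht]
  simp only [Finset.sum_add_distrib]
  congr 1
  · unfold muA
    refine Finset.sum_congr rfl fun s hs => ?_
    rw [Finset.sum_eq_single_of_mem (-s) (hneg s hs)]
    · rw [if_pos (add_neg_cancel s)]
    · intro t _ hts
      rw [if_neg]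
      intro h0
      exact hts (eq_neg_of_add_eq_zero_right h0)
  · unfold UA uA
    have h3 : ∀ s ∈ C, (∑ t ∈ C, ∑ d ∈ (DD C).erase 0, if s + t = d then φ s * φ t else 0) =
        ∑ d ∈ (DD C).erase 0, ∑ t ∈ C, if s + t = d then φ s * φ t else 0 := fun s _ =>
      Finset.sum_comm
    rw [Finset.sum_congr rfl h3, Finset.sum_comm]

theorem uA_mem (hφ : ∀ c, φ c ∈ K.P c) (d : Γ) : uA C φ d ∈ K.P d := by
  classical
  unfold uA
  refine sum_mem' K _ _ _ fun s _ => sum_mem' K _ _ _ fun t _ => ?_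
  split_ifs with h
  · rw [← h]
    exact K.mul _ _ _ _ (hφ s) (hφ t)
  · exact K.zero d

theorem muA_mem (hφ : ∀ c, φ c ∈ K.P c) : muA C φ ∈ K.P 0 := by
  unfold muA
  refine sum_mem' K _ _ _ fun s _ => ?_
  have := K.mul _ _ _ _ (hφ s) (hφ (-s))
  rwa [add_neg_cancel] at this

theorem vA_mem (hφ : ∀ c, φ c ∈ K.P c) : vA C φ ∈ K.P 0 := by
  classical
  unfold vA
  refine sum_mem' K _ _ _ fun s _ => ?_
  have := K.mul _ _ _ _ (uA_mem (C := C) hφ s) (uA_mem (C := C) hφ (-s))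
  rwa [add_neg_cancel] at this

theorem VA_mem (hφ : ∀ c, φ c ∈ K.P c) (hθ : ∀ s t, 0 ≤ θ s t) (d : Γ) : VA C θ φ d ∈ K.P d := by
  classical
  unfold VA
  refine sum_mem' K _ _ _ fun s _ => sum_mem' K _ _ _ fun t _ => ?_
  split_ifs with h
  · rw [← h]
    exact K.smul _ _ _ (hθ s t) (K.mul _ _ _ _ (hφ s) (hφ t))
  · exact K.zero d

theorem wA_mem (hφ : ∀ c, φ c ∈ K.P c) (hθ : ∀ s t, 0 ≤ θ s t) : wA C θ φ ∈ K.P 0 := by
  classical
  unfold wA
  refine sum_mem' K _ _ _ fun s _ => ?_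
  have := K.mul _ _ _ _ (VA_mem (C := C) hφ hθ s) (VA_mem (C := C) hφ hθ (-s))
  rwa [add_neg_cancel] at this

theorem isFun_mul (hL : IsFun K L) {E : R} (hE : E ∈ K.P 0) :
    IsFun K (L ∘ₗ LinearMap.mulLeft ℝ E) := by
  constructor
  · intro x hx
    have := K.mul _ _ _ _ hE hx
    rw [add_zero] at this
    exact hL.nn _ this
  · intro c hc x hx
    have := K.mul _ _ _ _ hE hx
    rw [zero_add] at this
    exact hL.z c hc _ this

theorem L_U (hL : IsFun K L) (hφ : ∀ c, φ c ∈ K.P c) : L (UA C φ) = 0 := by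
  classical
  unfold UA
  rw [map_sum]
  refine Finset.sum_eq_zero fun d hd => ?_
  exact hL.z d (Finset.mem_erase.1 hd).1 _ (uA_mem hφ d)

open Classical in
theorem DD_neg (hneg : ∀ s ∈ C, -s ∈ C) {d : Γ} (hd : d ∈ (DD C).erase 0) :
    -d ∈ (DD C).erase 0 := by
  classical
  rw [Finset.mem_erase] at hd ⊢
  refine ⟨fun h => hd.1 (neg_eq_zero.1 h), ?_⟩
  have h2 := hd.2
  unfold DD at h2 ⊢
  rw [Finset.mem_image] at h2 ⊢
  obtain ⟨p, hp, h3⟩ := h2
  rw [Finset.mem_product] at hp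
  refine ⟨(-p.1, -p.2), Finset.mem_product.2 ⟨hneg _ hp.1, hneg _ hp.2⟩, ?_⟩
  rw [← h3, neg_add]

theorem L_U2 (hL : IsFun K L) (hneg : ∀ s ∈ C, -s ∈ C) (hφ : ∀ c, φ c ∈ K.P c) :
    L (UA C φ ^ 2) = L (vA C φ) := by
  classical
  unfold UA vA
  rw [sq, Finset.sum_mul_sum, map_sum, map_sum]
  refine Finset.sum_congr rfl fun d hd => ?_
  rw [map_sum]
  refine Finset.sum_eq_single_of_mem (-d) (DD_neg hneg hd) fun e _ he => ?_
  refine hL.z (d + e) (fun h0 => he (eq_neg_of_add_eq_zero_right h0)) _ ?_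
  exact K.mul _ _ _ _ (uA_mem hφ d) (uA_mem hφ e)

theorem L_nn (hL : IsFun K L) {c : Γ} {x : R} (hx : x ∈ K.P c) : 0 ≤ L x := by
  by_cases h : c = 0
  · rw [h] at hx
    exact hL.nn x hx
  · rw [hL.z c h x hx]

theorem L_U3 (hL : IsFun K L) (hφ : ∀ c, φ c ∈ K.P c) : 0 ≤ L (UA C φ ^ 3) := by
  classical
  unfold UA
  rw [pow_succ, sq, Finset.sum_mul_sum, Finset.sum_mul_sum, map_sum]
  refine Finset.sum_nonneg fun a _ => ?_
  rw [map_sum]
  refine Finset.sum_nonneg fun b _ => ?_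
  rw [Finset.sum_mul, map_sum]
  refine Finset.sum_nonneg fun c _ => ?_
  exact L_nn hL (K.mul _ _ _ _ (K.mul _ _ _ _ (uA_mem hφ a) (uA_mem hφ c)) (uA_mem hφ b))

end Abs

end Pool.Agent.N169.LS
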