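import Pool.Agent.N303.LS.Stm

set_option autoImplicit false

/-! # Project LS (helper303), leaf KHI (helper169): Khintchine's inequality -/

namespace Pool.Agent.N169.LS

open Pool.Agent.N303.LS

theorem sum_exp {ι : Type} [Fintype ι] [DecidableEq ι] (c : ι → ℝ) :
    ∑ s : ι → Bool, Real.exp (∑ e, (if s e then c e else - c e)) =
      2 ^ (Fintype.card ι) * ∏ e, Real.cosh (c e) := by
  have h1 : ∀ s : ι → Bool, Real.exp (∑ e, (if s e then c e else - c e)) =
      ∏ e, Real.exp (if s e then c e else - c e) := by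
    intro s
    rw [Real.exp_sum]
  rw [Finset.sum_congr rfl (fun s _ => h1 s)]
  have h2 := Finset.prod_univ_sum (fun _ : ι => (Finset.univ : Finset Bool))
    (fun e b => Real.exp (if b then c e else - c e))
  rw [Fintype.piFinset_univ] at h2
  rw [← h2]
  have h3 : ∀ e : ι, ∑ b : Bool, Real.exp (if b then c e else - c e) = 2 * Real.cosh (c e) := by
    intro e
    rw [Fintype.sum_bool, Real.cosh_eq]
    simp only [if_true, Bool.false_eq_true, if_false]
    ring
  rw [Finset.prod_congr rfl (fun e _ => h3 e), Finset.prod_mul_distrib, Finset.prod_const,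
    Finset.card_univ]

theorem prod_cosh {ι : Type} [Fintype ι] (c : ι → ℝ) :
    ∏ e, Real.cosh (c e) ≤ Real.exp ((∑ e, c e ^ 2) / 2) := by
  calc ∏ e, Real.cosh (c e) ≤ ∏ e, Real.exp ((c e) ^ 2 / 2) := by
        apply Finset.prod_le_prod
        · intro e _
          exact (Real.cosh_pos _).le
        · intro e _
          exact Real.cosh_le_exp_half_sq _
    _ = Real.exp ((∑ e, c e ^ 2) / 2) := by
        rw [← Real.exp_sum]
        congr 1
        rw [Finset.sum_div]

theorem term_le (y : ℝ) (k : ℕ) : y ^ (2 * k) / ((2 * k).factorial : ℝ) ≤ Real.cosh y := by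
  have h := Real.hasSum_cosh y
  refine le_hasSum h k ?_
  intro j _
  have : 0 ≤ y ^ (2 * j) := by
    rw [pow_mul]
    positivity
  positivity

theorem rpow_le_cosh (p : ℝ) (hp : 2 ≤ p) : ∃ C : ℝ, 1 ≤ C ∧ ∀ s : ℝ, |s| ^ p ≤ C * Real.cosh s := by
  obtain ⟨n, hn⟩ := exists_nat_ge p
  have hf : (1 : ℝ) ≤ ((2 * n).factorial : ℝ) := by exact_mod_cast Nat.one_le_iff_ne_zero.2 (Nat.factorial_ne_zero _)
  refine ⟨((2 * n).factorial : ℝ), hf, ?_⟩
  intro s
  rcases le_or_gt |s| 1 with h | h
  · have h1 : |s| ^ p ≤ 1 := Real.rpow_le_one (abs_nonneg s) h (by linarith)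
    have h2 := Real.one_le_cosh s
    nlinarith
  · have h1 : |s| ^ p ≤ |s| ^ ((2 * n : ℕ) : ℝ) :=
      Real.rpow_le_rpow_of_exponent_le h.le (by push_cast; linarith)
    rw [Real.rpow_natCast] at h1
    have h2 : |s| ^ (2 * n) = s ^ (2 * n) := by
      rw [pow_mul, pow_mul, sq_abs]
    rw [h2] at h1
    have h3 := term_le s n
    rw [div_le_iff₀ (by linarith)] at h3
    linarith

theorem real_khi (p : ℝ) (hp : 2 ≤ p) : ∃ C : ℝ, 0 < C ∧ ∀ (ι : Type) [Fintype ι] [DecidableEq ι] (c : ι → ℝ),
    ∑ ε : ι → Bool, |∑ i, (if ε i then c i else - c i)| ^ p ≤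
      C * 2 ^ Fintype.card ι * (∑ i, c i ^ 2) ^ (p / 2) := by
  obtain ⟨K, hK1, hK⟩ := rpow_le_cosh p hp
  refine ⟨K * Real.exp (1 / 2), by positivity, ?_⟩
  intro ι _ _ c
  have hp0 : p ≠ 0 := by linarith
  set S := ∑ e, c e ^ 2 with hS
  have hS0 : 0 ≤ S := Finset.sum_nonneg (fun e _ => sq_nonneg _)
  rcases hS0.eq_or_lt with h0 | hpos
  · have hc : ∀ e, c e = 0 := by
      intro e
      have h1 := (Finset.sum_eq_zero_iff_of_nonneg (fun e _ => sq_nonneg (c e))).mp h0.symm e
        (Finset.mem_univ e)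
      exact pow_eq_zero_iff two_ne_zero |>.mp h1
    have h1 : ∀ s : ι → Bool, |∑ e, (if s e then c e else - c e)| ^ p = 0 := by
      intro s
      have : ∑ e, (if s e then c e else - c e) = 0 := by
        apply Finset.sum_eq_zero
        intro e _
        rw [hc e]; simp
      rw [this, abs_zero, Real.zero_rpow hp0]
    rw [Finset.sum_congr rfl (fun s _ => h1 s), Finset.sum_const_zero]
    positivity
  · set l := (√S)⁻¹ with hl
    have hsq : 0 < √S := Real.sqrt_pos.2 hpos
    have hlpos : 0 < l := inv_pos.2 hsq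
    have hl2 : l ^ 2 * S = 1 := by
      rw [hl, inv_pow, Real.sq_sqrt hS0, inv_mul_cancel₀ hpos.ne']
    have hlc : ∑ e, (l * c e) ^ 2 = 1 := by
      rw [← hl2, hS, Finset.mul_sum]
      exact Finset.sum_congr rfl (fun e _ => by ring)
    have hsc : ∀ s : ι → Bool, ∑ e, (if s e then l * c e else - (l * c e)) =
        l * ∑ e, (if s e then c e else - c e) := by
      intro s
      rw [Finset.mul_sum]
      refine Finset.sum_congr rfl (fun e _ => ?_)
      split_ifs <;> ring
    have h1 := sum_exp (fun e => l * c e)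
    have h2 := sum_exp (fun e => -(l * c e))
    have h3 : ∏ e, Real.cosh (-(l * c e)) = ∏ e, Real.cosh (l * c e) :=
      Finset.prod_congr rfl (fun e _ => Real.cosh_neg _)
    rw [h3] at h2
    have h4 : ∏ e, Real.cosh (l * c e) ≤ Real.exp (1 / 2) := by
      have := prod_cosh (fun e => l * c e)
      rwa [hlc] at this
    have h5 : ∑ s : ι → Bool, Real.cosh (l * ∑ e, (if s e then c e else - c e)) =
        2 ^ (Fintype.card ι) * ∏ e, Real.cosh (l * c e) := by
      have h6 : ∀ s : ι → Bool, Real.cosh (l * ∑ e, (if s e then c e else - c e)) =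
          (Real.exp (∑ e, (if s e then l * c e else - (l * c e))) +
            Real.exp (∑ e, (if s e then -(l * c e) else - (-(l * c e))))) / 2 := by
        intro s
        rw [Real.cosh_eq, hsc]
        congr 3
        rw [← hsc, ← Finset.sum_neg_distrib]
        refine Finset.sum_congr rfl (fun e _ => ?_)
        split_ifs <;> ring
      rw [Finset.sum_congr rfl (fun s _ => h6 s), ← Finset.sum_div, Finset.sum_add_distrib]
      have h1' := h1
      have h2' := h2
      rw [h1', h2']
      ring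
    have h7 : ∑ s : ι → Bool, |l * ∑ e, (if s e then c e else - c e)| ^ p ≤
        K * (2 ^ (Fintype.card ι) * Real.exp (1 / 2)) := by
      calc ∑ s : ι → Bool, |l * ∑ e, (if s e then c e else - c e)| ^ p
          ≤ ∑ s : ι → Bool, K * Real.cosh (l * ∑ e, (if s e then c e else - c e)) :=
            Finset.sum_le_sum (fun s _ => hK _)
        _ = K * (2 ^ (Fintype.card ι) * ∏ e, Real.cosh (l * c e)) := by
            rw [← Finset.mul_sum, h5]
        _ ≤ _ := by
            apply mul_le_mul_of_nonneg_left _ (by linarith)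
            exact mul_le_mul_of_nonneg_left h4 (by positivity)
    have h8 : ∑ s : ι → Bool, |l * ∑ e, (if s e then c e else - c e)| ^ p =
        l ^ p * ∑ s : ι → Bool, |∑ e, (if s e then c e else - c e)| ^ p := by
      rw [Finset.mul_sum]
      refine Finset.sum_congr rfl (fun s _ => ?_)
      rw [abs_mul, abs_of_pos hlpos, Real.mul_rpow hlpos.le (abs_nonneg _)]
    rw [h8] at h7
    have h9 : l ^ p * S ^ (p / 2) = 1 := by
      have e1 : l ^ p = (l ^ 2) ^ (p / 2) := by
        rw [← Real.rpow_natCast l 2, ← Real.rpow_mul hlpos.le]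
        congr 1
        push_cast
        ring
      rw [e1, ← Real.mul_rpow (by positivity) hS0, hl2, Real.one_rpow]
    have hlp : 0 < l ^ p := Real.rpow_pos_of_pos hlpos _
    have hSp : 0 < S ^ (p / 2) := Real.rpow_pos_of_pos hpos _
    calc ∑ s : ι → Bool, |∑ e, (if s e then c e else - c e)| ^ p
        = (l ^ p * S ^ (p / 2)) * ∑ s : ι → Bool, |∑ e, (if s e then c e else - c e)| ^ p := by
          rw [h9, one_mul]
      _ = (l ^ p * ∑ s : ι → Bool, |∑ e, (if s e then c e else - c e)| ^ p) * S ^ (p / 2) := by ring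
      _ ≤ (K * (2 ^ (Fintype.card ι) * Real.exp (1 / 2))) * S ^ (p / 2) :=
          mul_le_mul_of_nonneg_right h7 hSp.le
      _ = _ := by ring

theorem t_khi : S_KHI := by
  intro p hp
  obtain ⟨K, hK0, hK⟩ := real_khi p hp
  refine ⟨2 ^ p * (2 * K), by positivity, ?_⟩
  intro ι _ _ a
  have hp0 : 0 ≤ p := by linarith
  have hp2 : 0 ≤ p / 2 := by linarith
  have hz : ∀ z : ℂ, ‖z‖ ^ p ≤ 2 ^ p * (|z.re| ^ p + |z.im| ^ p) := by
    intro z
    have h1 : ‖z‖ ≤ 2 * max |z.re| |z.im| := by
      have := Complex.norm_le_abs_re_add_abs_im z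
      have h2 := le_max_left |z.re| |z.im|
      have h3 := le_max_right |z.re| |z.im|
      linarith
    calc ‖z‖ ^ p ≤ (2 * max |z.re| |z.im|) ^ p := Real.rpow_le_rpow (norm_nonneg _) h1 hp0
      _ = 2 ^ p * (max |z.re| |z.im|) ^ p :=
          Real.mul_rpow (by norm_num) (le_max_of_le_left (abs_nonneg _))
      _ ≤ _ := by
          apply mul_le_mul_of_nonneg_left _ (by positivity)
          rcases max_cases |z.re| |z.im| with ⟨h, -⟩ | ⟨h, -⟩ <;> rw [h]
          · have : 0 ≤ |z.im| ^ p := Real.rpow_nonneg (abs_nonneg _) _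
            linarith
          · have : 0 ≤ |z.re| ^ p := Real.rpow_nonneg (abs_nonneg _) _
            linarith
  have hre : ∀ ε : ι → Bool, (∑ i, (if ε i then a i else - a i)).re =
      ∑ i, (if ε i then (a i).re else - (a i).re) := by
    intro ε
    rw [Complex.re_sum]
    refine Finset.sum_congr rfl (fun i _ => ?_)
    split_ifs <;> simp
  have him : ∀ ε : ι → Bool, (∑ i, (if ε i then a i else - a i)).im =
      ∑ i, (if ε i then (a i).im else - (a i).im) := by
    intro ε
    rw [Complex.im_sum]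
    refine Finset.sum_congr rfl (fun i _ => ?_)
    split_ifs <;> simp
  have hre2 : (∑ i, (a i).re ^ 2) ^ (p / 2) ≤ (∑ i, ‖a i‖ ^ 2) ^ (p / 2) := by
    apply Real.rpow_le_rpow (Finset.sum_nonneg (fun _ _ => sq_nonneg _)) _ hp2
    refine Finset.sum_le_sum (fun i _ => ?_)
    rw [← sq_abs (a i).re]
    exact pow_le_pow_left₀ (abs_nonneg _) (Complex.abs_re_le_norm _) 2
  have him2 : (∑ i, (a i).im ^ 2) ^ (p / 2) ≤ (∑ i, ‖a i‖ ^ 2) ^ (p / 2) := by
    apply Real.rpow_le_rpow (Finset.sum_nonneg (fun _ _ => sq_nonneg _)) _ hp2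
    refine Finset.sum_le_sum (fun i _ => ?_)
    rw [← sq_abs (a i).im]
    exact pow_le_pow_left₀ (abs_nonneg _) (Complex.abs_im_le_norm _) 2
  have k1 := hK ι (fun i => (a i).re)
  have k2 := hK ι (fun i => (a i).im)
  set B := (∑ i, ‖a i‖ ^ 2) ^ (p / 2) with hB
  have hN : (0 : ℝ) ≤ K * 2 ^ Fintype.card ι := by positivity
  calc ∑ ε : ι → Bool, ‖∑ i, (if ε i then a i else - a i)‖ ^ p
      ≤ ∑ ε : ι → Bool, 2 ^ p * (|∑ i, (if ε i then (a i).re else - (a i).re)| ^ p +
          |∑ i, (if ε i then (a i).im else - (a i).im)| ^ p) := by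
        refine Finset.sum_le_sum (fun ε _ => ?_)
        have := hz (∑ i, (if ε i then a i else - a i))
        rwa [hre, him] at this
    _ = 2 ^ p * (∑ ε : ι → Bool, |∑ i, (if ε i then (a i).re else - (a i).re)| ^ p +
          ∑ ε : ι → Bool, |∑ i, (if ε i then (a i).im else - (a i).im)| ^ p) := by
        rw [← Finset.mul_sum, Finset.sum_add_distrib]
    _ ≤ 2 ^ p * (K * 2 ^ Fintype.card ι * B + K * 2 ^ Fintype.card ι * B) := by
        apply mul_le_mul_of_nonneg_left _ (by positivity)
        exact add_le_add (k1.trans (mul_le_mul_of_nonneg_left hre2 hN))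
          (k2.trans (mul_le_mul_of_nonneg_left him2 hN))
    _ = 2 ^ p * (2 * K) * 2 ^ Fintype.card ι * B := by ring

end Pool.Agent.N169.LS
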